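import Pool.Agent.U762.GA.Stm

/-! # Project GA (helper762), package BCc (helper962): Borel-Cantelli with a given constant -/

set_option autoImplicit false

namespace Pool.Agent.U962.GA

open Finset MeasureTheory Filter Pool.Agent.U762.RP Pool.Agent.U762.GA

theorem ind_le (M θ : ℝ) (hM : 1 ≤ M) (hθ : 0 < θ) (x : ℤ) : ind M x ≤ V M θ x := by
  unfold ind V
  split_ifs with h
  · exact le_rfl
  · rw [not_lt] at h
    exact Real.one_le_rpow (hM.trans h) hθ.le

theorem Q_mono {d : ℕ} {m r : ℤ → ℤ} {w : ℤ → ℝ} (hw : ∀ u, 0 ≤ w u) {B : ℕ} {M : ℝ}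
    {F G : ℤ → ℝ} (h : ∀ x, F x ≤ G x) (x : ℤ) : Q d m r w B M F x ≤ Q d m r w B M G x := by
  unfold Q
  split_ifs
  · exact le_rfl
  · exact sum_le_sum fun u _ => mul_le_mul_of_nonneg_left (h _) (hw u)

theorem Q_iter_mono {d : ℕ} {m r : ℤ → ℤ} {w : ℤ → ℝ} (hw : ∀ u, 0 ≤ w u) {B : ℕ} {M : ℝ} (L : ℕ) :
    ∀ F G : ℤ → ℝ, (∀ x, F x ≤ G x) → ∀ x, (Q d m r w B M)^[L] F x ≤ (Q d m r w B M)^[L] G x := by
  induction L with
  | zero => intro F G h x; exact h x
  | succ L ih =>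
    intro F G h x
    rw [Function.iterate_succ_apply, Function.iterate_succ_apply]
    exact ih _ _ (Q_mono hw h) x

theorem bound (C lam θ c M : ℝ) (hC : 0 < C) (hl0 : 0 < lam) (hl1 : lam < 1) (hθ : 0 < θ)
    (hc : 1 + θ < c * Real.log (1 / lam)) (x : ℤ) :
    C * lam ^ ⌈c * Real.log (2 + |(x : ℝ)|)⌉₊ * V M θ x ≤
      C * (|(x : ℝ)| ^ (-(c * Real.log (1 / lam) - θ)) + if x = 0 then 1 else 0) := by
  have hlog : Real.log lam < 0 := Real.log_neg hl0 hl1
  have hinv : Real.log (1 / lam) = -Real.log lam := by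
    rw [one_div, Real.log_inv]
  obtain ⟨y, hy⟩ : ∃ y : ℝ, y = 2 + |(x : ℝ)| := ⟨_, rfl⟩
  have hx0 : 0 ≤ |(x : ℝ)| := abs_nonneg _
  have hy2 : 2 ≤ y := by rw [hy]; linarith
  have hy0 : 0 < y := by linarith
  obtain ⟨p, hp⟩ : ∃ p : ℝ, p = c * Real.log (1 / lam) - θ := ⟨_, rfl⟩
  have hp1 : 1 < p := by rw [hp]; linarith
  rw [← hy, ← hp]
  set L := ⌈c * Real.log y⌉₊ with hL
  have hLc : c * Real.log y ≤ (L : ℝ) := Nat.le_ceil _
  have h1 : lam ^ L ≤ y ^ (-(c * Real.log (1 / lam))) := by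
    have e1 : lam ^ L = Real.exp ((L : ℝ) * Real.log lam) := by
      rw [Real.exp_nat_mul, Real.exp_log hl0]
    rw [e1, Real.rpow_def_of_pos hy0]
    apply Real.exp_le_exp.mpr
    have h2 : (L : ℝ) * Real.log lam ≤ c * Real.log y * Real.log lam :=
      mul_le_mul_of_nonpos_right hLc hlog.le
    have h3 : Real.log y * -(c * Real.log (1 / lam)) = c * Real.log y * Real.log lam := by
      rw [hinv]; ring
    rw [h3]
    exact h2
  have h4 : V M θ x ≤ y ^ θ := by
    unfold V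
    split_ifs
    · exact Real.rpow_nonneg hy0.le _
    · exact Real.rpow_le_rpow hx0 (by rw [hy]; linarith) hθ.le
  have hV0 : 0 ≤ V M θ x := by
    unfold V
    split_ifs
    · exact le_rfl
    · exact Real.rpow_nonneg hx0 _
  have h5 : lam ^ L * V M θ x ≤ y ^ (-p) := by
    calc lam ^ L * V M θ x ≤ y ^ (-(c * Real.log (1 / lam))) * y ^ θ :=
          mul_le_mul h1 h4 hV0 (Real.rpow_nonneg hy0.le _)
      _ = y ^ (-p) := by
          rw [← Real.rpow_add hy0, hp]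
          congr 1
          ring
  have h6 : y ^ (-p) ≤ |(x : ℝ)| ^ (-p) + if x = 0 then 1 else 0 := by
    by_cases hx : x = 0
    · rw [if_pos hx]
      have h7 : 0 ≤ |(x : ℝ)| ^ (-p) := Real.rpow_nonneg hx0 _
      have h8 : y ^ (-p) ≤ 1 := Real.rpow_le_one_of_one_le_of_nonpos (by linarith) (by linarith)
      linarith
    · rw [if_neg hx, add_zero]
      have hx1 : 0 < |(x : ℝ)| := abs_pos.mpr (by exact_mod_cast hx)
      exact Real.rpow_le_rpow_of_nonpos hx1 (by rw [hy]; linarith) (by linarith)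
  rw [mul_assoc]
  exact mul_le_mul_of_nonneg_left (h5.trans h6) hC.le

theorem summ (C : ℝ) {p : ℝ} (hp : 1 < p) :
    Summable fun x : ℤ => C * (|(x : ℝ)| ^ (-p) + if x = 0 then 1 else 0) := by
  refine Summable.mul_left C ?_
  exact (Real.summable_abs_int_rpow hp).add (hasSum_ite_eq 0 1).summable

/-- Package BCc. -/
theorem t_BCc : S_BCc := by
  intro hP d m r μ _ B hμ M C lam θ c hM hC hl0 hl1 hθ hc h
  refine ae_finite_setOfPred_mem (s := fun x : ℤ =>
    {ω | Long d m r M ⌈c * Real.log (2 + |(x : ℝ)|)⌉₊ x ω}) ?_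
  refine ne_top_of_le_ne_top
    (summ C (p := c * Real.log (1 / lam) - θ) (by linarith)).tsum_ofReal_ne_top
    (ENNReal.tsum_le_tsum fun x => ?_)
  refine (hP d m r μ B hμ M _ x).trans (ENNReal.ofReal_le_ofReal ?_)
  refine (Q_iter_mono (fun u => measureReal_nonneg) _ _ _ (ind_le M θ hM hθ) x).trans ?_
  exact (h _ x).trans (bound C lam θ c M hC hl0 hl1 hθ hc x)

end Pool.Agent.U962.GA
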